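import Mathlib
import Pool.Agent.Work.MP_db9399_co.Defs
import Pool.Agent.Work.MP_db9399_all.Interface
import Pool.Agent.Work.MP_db9399_px.Interface
import Pool.Agent.Work.MP_db9399_dn.Interface

/-!
# MP_db9399, THEOREM SC: Q1 for graphs of large degree with chromatic number at most `c Δ`,
which are nowhere almost bipartite; any number of vertices (owner helper35)

Definitions and the exact statement `Stmt_X` of every block. See `BLUEPRINT.md`.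
-/

set_option autoImplicit false

namespace Pool.Agent.Work.MP_db9399_sc

open Finset Classical
open Pool.Agent.Work.MP_db9399_all (nb)
open Pool.Agent.Work.MP_db9399_px (LWalk hit)
open Pool.Agent.Work.MP_db9399_dn (NB IsMat Tot)
open _root_.MP_db9399_co

universe u

section defs
variable {V : Type u} [Fintype V]

/-- number of edges of `F` from `C` to `U \ C` -/
noncomputable def cut (F : SimpleGraph V) (U C : Finset V) : ℕ :=
  ∑ v ∈ C, (nb F v ∩ (U \ C)).card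

/-- critical sets: in `L`, large, small boundary -/
def Crit (F : SimpleGraph V) (d : ℕ) (U L C : Finset V) : Prop :=
  C ⊆ L ∧ d ≤ 2 * C.card ∧ 5 * cut F U C < 7 * d

/-- typical vertices of `C` -/
def Typ (F : SimpleGraph V) (d : ℕ) (U C : Finset V) (v : V) : Prop :=
  v ∈ C ∧ 1000 * (nb F v ∩ (U \ C)).card ≤ d

/-- `C` is connected in `F` -/
def Conn (F : SimpleGraph V) (C : Finset V) : Prop :=
  ∀ C1 ⊆ C, C1.Nonempty → C1 ≠ C → ∃ v ∈ C1, ∃ w ∈ C, w ∉ C1 ∧ F.Adj v w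

/-- the situation of one round: current graph `F`, present vertices `U`, heavy vertices `L` -/
structure Env (G F : SimpleGraph V) (d : ℕ) (U L : Finset V) : Prop where
  FG : F ≤ G
  deg : ∀ v, (nb G v).card ≤ d
  LU : L ⊆ U
  big : ∀ v ∈ L, 999 * d ≤ 1000 * (nb F v ∩ U).card

/-- disjoint connected critical sets -/
structure Fam (G F : SimpleGraph V) (d : ℕ) (U L : Finset V) (Cs : Finset (Finset V)) :
    Prop where
  env : Env G F d U L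
  crit : ∀ C ∈ Cs, Crit F d U L C
  conn : ∀ C ∈ Cs, Conn F C
  dis : ∀ C ∈ Cs, ∀ C' ∈ Cs, C ≠ C' → Disjoint C C'

/-- the vertices chosen in one round: two typical ones in each of some disjoint critical sets -/
def Spr (G : SimpleGraph V) (d : ℕ) (O : Finset V) : Prop :=
  ∃ (F : SimpleGraph V) (U L : Finset V) (Cs : Finset (Finset V)), Fam G F d U L Cs ∧
    (∀ z ∈ O, ∃ C ∈ Cs, Typ F d U C z) ∧ ∀ C ∈ Cs, (O ∩ C).card ≤ 2

/-- heavy vertices -/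
noncomputable def Hv (η : ℝ) (G : SimpleGraph V) (d : ℕ) : Finset V :=
  univ.filter (fun v => (1 - η / 16) * d ≤ ((nb G v).card : ℝ))

/-- matchings `M b`, `b ∈ I`, with exceptional vertices `O b`. `D0`: forbidden edges, `X b`:
forbidden vertices. -/
structure Rnd (G : SimpleGraph V) (d k : ℕ) (L : Finset V) (I : Finset (Fin k))
    (D0 : SimpleGraph V) (X : Fin k → Finset V) where
  M : Fin k → SimpleGraph V
  O : Fin k → Finset V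
  Mle : ∀ b, M b ≤ G
  Mmat : ∀ b, IsMat (M b)
  MI : ∀ b v w, (M b).Adj v w → b ∈ I
  MD : ∀ b v w, (M b).Adj v w → ¬ D0.Adj v w ∧ v ∉ X b
  Md : ∀ b b', b ≠ b' → ∀ v w, (M b).Adj v w → ¬ (M b').Adj v w
  Mcov : ∀ b ∈ I, ∀ v ∈ L, v ∉ X b → v ∉ O b → (nb (M b) v).Nonempty
  OX : ∀ b ∈ I, Disjoint (O b) (X b)
  Od : ∀ b ∈ I, ∀ b' ∈ I, b ≠ b' → Disjoint (O b) (O b')
  Ospr : ∀ b ∈ I, Spr G d (O b)

/-- All choices before the matchings. `P`: colours of the vertices, `Q`: more colours. -/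
structure Pre (G : SimpleGraph V) (d k : ℕ) (η α : ℝ) (UH : Finset V) (c0 : V → Fin k)
    (EH : SimpleGraph V) (t0 : V → V → Fin k) where
  P : Finset (Fin k)
  Q : Finset (Fin k)
  PQ : Disjoint P Q
  Pc : (P.card : ℝ) * 24 ≤ α * d
  Pd : (P.card : ℝ) ≤ η / 800 * d
  Qd : (Q.card : ℝ) ≤ η / 800 * d
  c : V → Fin k
  cP : ∀ v, c v ∈ P
  cadj : ∀ v w, G.Adj v w → c v ≠ c w
  cH : ∀ v ∈ UH, c v = c0 v
  K : Fin k → SimpleGraph V
  Kle : ∀ b, K b ≤ G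
  Kmat : ∀ b, IsMat (K b)
  Kd : ∀ b b', b ≠ b' → ∀ v w, (K b).Adj v w → ¬ (K b').Adj v w
  KI : ∀ b v w, (K b).Adj v w → b ∈ P ∨ b ∈ Q
  Kc : ∀ b v w, (K b).Adj v w → c v ≠ b
  KP : ∀ b ∈ P, ∀ v w, (K b).Adj v w → v ∈ UH
  KH : ∀ v w, EH.Adj v w → (K (t0 v w)).Adj v w
  W : Finset V
  WU : ∀ v ∈ W, v ∉ UH
  KW : ∀ v ∈ W, ∀ w ∈ W, G.Adj v w → ∃ b ∈ Q, (K b).Adj v w
  KQ : ∀ b ∈ Q, ∀ v w, (K b).Adj v w → v ∈ W
  Wd : ∀ v, ((nb G v ∩ W).card : ℝ) ≤ η / 800 * d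
  Xd : ∀ b ∈ P, ∀ v,
    (((nb G v).filter (fun w => c w = b ∨ w ∈ UH)).card : ℝ) ≤ η / 800 * d
  /-- `W` meets every connected critical set of the rounds of `P` in a positive proportion -/
  Wc : ∀ b ∈ P, ∀ (D : SimpleGraph V) (X C : Finset V), (∀ v, ((nb D v).card : ℝ) ≤ η / 100 * d) →
    (∀ v ∈ X, c v = b ∨ v ∈ UH) → Env G (G \ D) d (univ \ X) (Hv η G d \ X) →
    Crit (G \ D) d (univ \ X) (Hv η G d \ X) C → Conn (G \ D) C →
    α * C.card ≤ ((C ∩ W).card : ℝ)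

/-- the matchings of all colours in `P ∪ Q` (with the forced edges) and the new vertex colouring -/
structure Full {G : SimpleGraph V} {d k : ℕ} {η α : ℝ} {UH : Finset V} {c0 : V → Fin k}
    {EH : SimpleGraph V} {t0 : V → V → Fin k} (Z : Pre G d k η α UH c0 EH t0) where
  c : V → Fin k
  cPal : ∀ v, c v ∈ Z.P ∪ Z.Q
  cadj : ∀ v w, G.Adj v w → c v ≠ c w
  cH : ∀ v ∈ UH, c v = c0 v
  M : Fin k → SimpleGraph V
  Mle : ∀ b, M b ≤ G
  Mmat : ∀ b, IsMat (M b)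
  MK : ∀ b, Z.K b ≤ M b
  Mpal : ∀ b v w, (M b).Adj v w → b ∈ Z.P ∪ Z.Q
  Mc : ∀ b v w, (M b).Adj v w → c v ≠ b
  Md : ∀ b b', b ≠ b' → ∀ v w, (M b).Adj v w → ¬ (M b').Adj v w
  Mcov : ∀ v ∈ Hv η G d, v ∉ Z.W → ∀ b ∈ Z.P ∪ Z.Q, b ≠ c v → (nb (M b) v).Nonempty
  McovW : ∀ v ∈ Hv η G d, v ∈ Z.W → ∃ b0 : Fin k, ∀ b ∈ Z.P ∪ Z.Q, b ≠ c v → b ≠ b0 →
    (nb (M b) v).Nonempty

end defs

/-! ## Blocks on one round -/

/-- TUT (from `tutte_fam` in Work/MP_db9399_dn/MLA.lean): if `O` meets every critical set, there is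
a matching which covers all heavy vertices outside `O`. -/
def Stmt_TUT : Prop :=
  ∀ η : ℝ, 0 < η → η ≤ 1 / 100 → ∃ d0 : ℕ, ∀ {V : Type u} [Fintype V] (F : SimpleGraph V)
    (d : ℕ) (U L O : Finset V), d0 ≤ d → L ⊆ U → (∀ v, (nb F v).card ≤ d) →
    (∀ v ∈ L, (1 - η / 8) * d ≤ ((nb F v ∩ U).card : ℝ)) →
    (∀ S T : Finset V, S ⊆ U → T ⊆ L → Disjoint S T → (∀ t ∈ T, nb F t ∩ U ⊆ S) →
      (1 + η) * T.card ≤ (S.card : ℝ)) →
    (∀ C, Crit F d U L C → ∃ v ∈ C, v ∈ O) →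
    ∃ M : SimpleGraph V, M ≤ F ∧ IsMat M ∧ (∀ v w, M.Adj v w → v ∈ U) ∧
      ∀ v ∈ L, v ∉ O → (nb M v).Nonempty

/-- HIT: disjoint critical sets such that any two typical vertices in each of them meet all
critical sets. -/
def Stmt_HIT : Prop :=
  ∃ d0 : ℕ, ∀ {V : Type u} [Fintype V] (G F : SimpleGraph V) (d : ℕ) (U L : Finset V),
    d0 ≤ d → Env G F d U L →
    ∃ Cs : Finset (Finset V), Fam G F d U L Cs ∧
      ∀ O : Finset V, (∀ C ∈ Cs, ∃ v ∈ O, ∃ w ∈ O, v ≠ w ∧ Typ F d U C v ∧ Typ F d U C w) →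
        ∀ C, Crit F d U L C → ∃ v ∈ C, v ∈ O

/-- STEP (from TUT, HIT): `D` = forbidden edges, `X` = forbidden vertices. -/
def Stmt_STEP : Prop :=
  ∀ η : ℝ, 0 < η → η ≤ 1 / 100 → ∃ d0 : ℕ, ∀ {V : Type u} [Fintype V] (G D : SimpleGraph V)
    (d : ℕ) (X : Finset V), d0 ≤ d → (∀ v, (nb G v).card ≤ d) → NB η G d (Hv η G d) →
    (∀ v, ((nb D v).card : ℝ) ≤ η / 100 * d) →
    (∀ v, ((nb G v ∩ X).card : ℝ) ≤ η / 100 * d) →
    ∃ Cs : Finset (Finset V), Fam G (G \ D) d (univ \ X) (Hv η G d \ X) Cs ∧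
      ∀ O : Finset V, (∀ C ∈ Cs, ∃ v ∈ O, ∃ w ∈ O, v ≠ w ∧ Typ (G \ D) d (univ \ X) C v ∧
          Typ (G \ D) d (univ \ X) C w) →
        ∃ M : SimpleGraph V, M ≤ G \ D ∧ IsMat M ∧ (∀ v w, M.Adj v w → v ∉ X) ∧
          ∀ v ∈ Hv η G d, v ∉ X → v ∉ O → (nb M v).Nonempty

/-- DEP: (1) few vertices of a critical set are not typical; (2) a critical set contains few typical
vertices chosen in another round; (3) and few vertices of a set `Y` which is sparse everywhere;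
(4) critical sets are not too small. -/
def Stmt_DEP : Prop :=
  ∃ d0 : ℕ, ∀ {V : Type u} [Fintype V] (G F : SimpleGraph V) (d : ℕ) (U L C : Finset V),
    d0 ≤ d → Env G F d U L → Crit F d U L C →
    (C.filter (fun v => ¬ Typ F d U C v)).card ≤ 1400 ∧
    (∀ O, Spr G d O → d * (O ∩ C).card ≤ 3 * C.card + 1400 * d) ∧
    (∀ (Y : Finset V) (y : ℝ), (∀ v, ((nb G v ∩ Y).card : ℝ) ≤ y) →
      (d : ℝ) * (C ∩ Y).card ≤ 11 / 10 * y * C.card + 1400 * d) ∧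
    99 * d ≤ 100 * C.card ∧
    -- (5) many rounds: the untypical vertices count only once
    ∀ (ι : Type) (I : Finset ι) (O : ι → Finset V), (∀ i ∈ I, Spr G d (O i)) →
      (∀ i ∈ I, ∀ j ∈ I, i ≠ j → Disjoint (O i) (O j)) →
      d * (I.biUnion O ∩ C).card ≤ 3 * I.card * C.card + 1400 * d

/-- TRV (from LLLI, Work/MP_db9399_all_helper6/LLLI.lean): two vertices in each of the disjoint sets,
all of them independent. -/
def Stmt_TRV : Prop :=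
  ∃ d0 : ℕ, ∀ {V : Type u} [Fintype V] (G : SimpleGraph V) (d χ : ℕ) (J : V → ℕ)
    (Cs : Finset (Finset V)) (A : Finset V → Finset V), d0 ≤ d → 100 * χ ≤ d →
    (∀ v, J v < χ) → (∀ v w, G.Adj v w → J v ≠ J w) →
    (∀ C ∈ Cs, A C ⊆ C ∧ d ≤ 4 * (A C).card ∧ ∀ v ∈ A C, 400 * (nb G v \ C).card ≤ d) →
    (∀ C ∈ Cs, ∀ C' ∈ Cs, C ≠ C' → Disjoint C C') →
    ∃ O : Finset V, (∀ v ∈ O, ∀ w ∈ O, ¬ G.Adj v w) ∧ (∀ v ∈ O, ∃ C ∈ Cs, v ∈ A C) ∧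
      ∀ C ∈ Cs, (O ∩ C).card = 2

/-! ## The random set -/

/-- CODE (from SAMP, WALK of MP_db9399_px): a connected critical set is almost `hit G θ R` for a set
`R` covered by a short walk. -/
def Stmt_CODE : Prop :=
  ∀ ε : ℝ, 0 < ε → ∃ (δ : ℝ) (d0 : ℕ), 0 < δ ∧ ∀ {V : Type u} [Fintype V] (G F : SimpleGraph V)
    (d : ℕ) (U L C : Finset V), d0 ≤ d → Env G F d U L →
    (∀ v ∈ U, 10 * ((nb G v \ nb F v) ∩ U).card ≤ d) →
    (∀ v, ((nb G v \ U).card : ℝ) ≤ δ * d) → Crit F d U L C → Conn F C →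
    ∃ (R : Finset V) (l : ℕ) (w : ℕ → V) (θ : ℝ), LWalk G l w ∧ 1 ≤ l ∧ 0 ≤ θ ∧
      (∀ v ∈ R, ∃ i ≤ l, w i = v) ∧
      (l : ℝ) * d ≤ 200 * (Real.log d * ((hit G θ R).card : ℝ)) ∧
      ((hit G θ R \ C).card : ℝ) ≤ ε * C.card ∧ ((C \ hit G θ R).card : ℝ) ≤ ε * C.card

/-- RND (from `llx_holds` in Work/MP_db9399_px_helper35/Final.lean, `blk = id`, `pos = 0`). -/
def Stmt_RND : Prop :=
  ∀ M : ℕ, 0 < M → ∃ d0 : ℕ, 1 ≤ d0 ∧ ∀ {V : Type u} [Fintype V] (G : SimpleGraph V) (d : ℕ),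
    d0 ≤ d → (∀ v, (nb G v).card ≤ d) →
    ∃ a : V → Fin M,
      (∀ v i, (M : ℝ) * ((nb G v).filter (fun w => a w = i)).card ≤ 2 * d) ∧
      ∀ (i : Fin M) (l : ℕ) (w : ℕ → V) (R : Finset V) (θ : ℝ), LWalk G l w → 1 ≤ l → 0 ≤ θ →
        (∀ v ∈ R, ∃ j ≤ l, w j = v) →
        (l : ℝ) * d ≤ 200 * (Real.log d * ((hit G θ R).card : ℝ)) →
        ((hit G θ R).card : ℝ) ≤ 2 * M * ((hit G θ R).filter (fun v => a v = i)).card

/-- PRE (from CODE, RND, DEP, VIZ): the choices. -/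
def Stmt_PRE : Prop :=
  ∀ η : ℝ, 0 < η → η ≤ 1 / 100 → ∃ (c α : ℝ) (d0 : ℕ), 0 < c ∧ 0 < α ∧
    ∀ {V : Type u} [Fintype V] (G : SimpleGraph V) (d k χ : ℕ) (J : V → ℕ) (UH : Finset V)
      (c0 : V → Fin k) (EH : SimpleGraph V) (t0 : V → V → Fin k) (CH : Finset (Fin k)),
      d0 ≤ d → d + 2 ≤ k → (∀ v, (nb G v).card ≤ d) → (χ : ℝ) ≤ c * d → (∀ v, J v < χ) →
      (∀ v w, G.Adj v w → J v ≠ J w) → (∀ v, (nb G v ∩ UH).card ≤ 2) →
      (∀ v ∈ UH, ∀ w ∈ UH, G.Adj v w → c0 v ≠ c0 w) → EH ≤ G → IsMat EH →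
      (∀ v w, EH.Adj v w → v ∈ UH ∧ t0 v w ≠ c0 v ∧ t0 v w = t0 w v) →
      (CH.card : ℝ) ≤ c * d → (∀ v ∈ UH, c0 v ∈ CH) → (∀ v w, EH.Adj v w → t0 v w ∈ CH) →
      Nonempty (Pre G d k η α UH c0 EH t0)

/-! ## All rounds -/

/-- QALL (from STEP, DEP, TRV): the rounds of `Q`; the exceptional sets are independent and avoid
`Y`. -/
def Stmt_QALL : Prop :=
  ∀ η : ℝ, 0 < η → η ≤ 1 / 100 → ∃ d0 : ℕ, ∀ {V : Type u} [Fintype V] (G : SimpleGraph V)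
    (d k χ : ℕ) (J : V → ℕ) (I : Finset (Fin k)) (D0 : SimpleGraph V) (X : Fin k → Finset V)
    (Y : Finset V), d0 ≤ d → (∀ v, (nb G v).card ≤ d) → NB η G d (Hv η G d) →
    100 * χ ≤ d → (∀ v, J v < χ) → (∀ v w, G.Adj v w → J v ≠ J w) →
    (I.card : ℝ) ≤ η / 200 * d → (∀ v, ((nb D0 v).card : ℝ) ≤ η / 200 * d) →
    (∀ b ∈ I, ∀ v, ((nb G v ∩ X b).card : ℝ) ≤ η / 100 * d) →
    (∀ v, ((nb G v ∩ Y).card : ℝ) ≤ d / 10) →
    ∃ R : Rnd G d k (Hv η G d) I D0 X, ∀ b ∈ I, Disjoint (R.O b) Y ∧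
      ∀ v ∈ R.O b, ∀ w ∈ R.O b, ¬ G.Adj v w

/-- PALL (from STEP, DEP): the rounds of `P`; the exceptional sets are in `W`. -/
def Stmt_PALL : Prop :=
  ∀ η α : ℝ, 0 < η → η ≤ 1 / 100 → 0 < α → ∃ d0 : ℕ, ∀ {V : Type u} [Fintype V]
    (G : SimpleGraph V) (d k : ℕ) (I : Finset (Fin k)) (D0 : SimpleGraph V)
    (X : Fin k → Finset V) (W : Finset V), d0 ≤ d → (∀ v, (nb G v).card ≤ d) →
    NB η G d (Hv η G d) → (I.card : ℝ) ≤ η / 200 * d → (I.card : ℝ) * 24 ≤ α * d →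
    (∀ v, ((nb D0 v).card : ℝ) ≤ η / 200 * d) →
    (∀ b ∈ I, ∀ v, ((nb G v ∩ X b).card : ℝ) ≤ η / 100 * d) →
    (∀ b ∈ I, ∀ (D : SimpleGraph V) (C : Finset V), (∀ v, ((nb D v).card : ℝ) ≤ η / 100 * d) →
      Env G (G \ D) d (univ \ X b) (Hv η G d \ X b) →
      Crit (G \ D) d (univ \ X b) (Hv η G d \ X b) C → Conn (G \ D) C →
      α * C.card ≤ ((C ∩ W).card : ℝ)) →
    ∃ R : Rnd G d k (Hv η G d) I D0 X, ∀ b ∈ I, R.O b ⊆ W

/-- FULL (from QALL, PALL): all matchings of the colours in `P ∪ Q`; first the rounds of `Q` (missed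
vertices are recoloured), then the rounds of `P`. -/
def Stmt_FULL : Prop :=
  ∀ η α : ℝ, 0 < η → η ≤ 1 / 100 → 0 < α → ∃ d0 : ℕ, ∀ {V : Type u} [Fintype V]
    (G : SimpleGraph V) (d k χ : ℕ) (J : V → ℕ) (UH : Finset V) (c0 : V → Fin k)
    (EH : SimpleGraph V) (t0 : V → V → Fin k) (Z : Pre G d k η α UH c0 EH t0), d0 ≤ d →
    (∀ v, (nb G v).card ≤ d) → NB η G d (Hv η G d) → 100 * χ ≤ d →
    (∀ v, J v < χ) → (∀ v w, G.Adj v w → J v ≠ J w) → (∀ v, (nb G v ∩ UH).card ≤ 2) →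
    Nonempty (Full Z)

/-- ASM (from CORE of MP_db9399_dn): the total colouring. -/
def Stmt_ASM : Prop :=
  ∀ {V : Type u} [Fintype V] {G : SimpleGraph V} {d k : ℕ} {η α : ℝ} {UH : Finset V}
    {c0 : V → Fin k} {EH : SimpleGraph V} {t0 : V → V → Fin k} (Z : Pre G d k η α UH c0 EH t0)
    (_ : Full Z), 0 < η → 1 ≤ d → d + 2 ≤ k → (∀ v, (nb G v).card ≤ d) →
    (∀ v w, EH.Adj v w → t0 v w = t0 w v) →
    ∃ (c : V → Fin k) (t : V → V → Fin k), Tot G c t ∧ (∀ v ∈ UH, c v = c0 v) ∧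
      ∀ v w, EH.Adj v w → t v w = t0 v w

/-- THE THEOREM. -/
def Stmt_MAIN : Prop :=
  ∀ η : ℝ, 0 < η → ∃ (c : ℝ) (d0 : ℕ), 0 < c ∧ ∀ (V : Type u) [Fintype V] (G : SimpleGraph V)
    [DecidableRel G.Adj] (k m : ℕ), d0 ≤ G.maxDegree → G.Colorable m →
    (m : ℝ) ≤ c * G.maxDegree →
    (∀ S T : Finset V, Disjoint S T → (∀ t ∈ T, (1 - η) * G.maxDegree ≤ (G.degree t : ℝ)) →
      (S.card : ℝ) ≤ (1 + η) * T.card →
      η * G.maxDegree * T.card ≤ ((G.interedges T (univ \ S)).card : ℝ)) →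
    G.maxDegree + 2 ≤ k →
    ∀ H : G.Subgraph, IsDistThreeMatching H → ∀ (c₀ : V → Fin k) (t₀ : Sym2 V → Fin k),
      IsTotalColoring H.spanningCoe c₀ t₀ →
      ((c₀ '' H.verts ∪ t₀ '' H.edgeSet).ncard : ℝ) ≤ c * G.maxDegree →
      ∃ (c : V → Fin k) (t : Sym2 V → Fin k), IsTotalColoring G c t ∧
        (∀ v ∈ H.verts, c v = c₀ v) ∧ ∀ e ∈ H.edgeSet, t e = t₀ e

/-- FIND (compare Work/MP_db9399_dn/FIND.lean). -/
def Stmt_FIND : Prop := Stmt_PRE.{u} → Stmt_FULL.{u} → Stmt_ASM.{u} → Stmt_MAIN.{u}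

end Pool.Agent.Work.MP_db9399_sc
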