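import Pool.Agent.Work.MP_db9399_sc_helper43.TUT
import Pool.Agent.Work.MP_db9399_sc_helper43.FULL
import Pool.Agent.Work.MP_db9399_sc_helper43.PRE
import Pool.Agent.Work.MP_db9399_sc_helper59.HIT
import Pool.Agent.Work.MP_db9399_sc_helper6.STEP
import Pool.Agent.Work.MP_db9399_sc_helper6.TRV
import Pool.Agent.Work.MP_db9399_sc_helper31.DEP
import Pool.Agent.Work.MP_db9399_sc_helper23.CODE
import Pool.Agent.Work.MP_db9399_sc_helper23.ASM
import Pool.Agent.Work.MP_db9399_sc_helper89.RND
import Pool.Agent.Work.MP_db9399_sc_helper26.QALL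
import Pool.Agent.Work.MP_db9399_sc_helper26.PALL
import Pool.Agent.Work.MP_db9399_sc_helper26.FIND

/-!
# MP_db9399: assembly of the theorem on graphs with chromatic number at most `c Δ`
-/

set_option autoImplicit false

namespace Pool.Agent.Work.MP_db9399_sc

universe u

theorem step_holds : Stmt_STEP.{u} := helper6.stmt_STEP helper43.stmt_TUT helper59.stmt_HIT

theorem stmt_MAIN : Stmt_MAIN.{u} :=
  helper26.FIND.stmt_FIND
    (helper43.stmt_PRE helper23.stmt_CODE helper89.stmt_RND helper31.stmt_DEP)
    (helper43.stmt_FULL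
      (helper26.stmt_QALL step_holds helper31.stmt_DEP helper6.stmt_TRV)
      (helper26.stmt_PALL step_holds helper31.stmt_DEP))
    helper23.ASM.stmt_ASM

end Pool.Agent.Work.MP_db9399_sc
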